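import Pool.Agent.W581.HQ.Stm

/-! Project HQ, part INV: the curve of contact. -/

set_option autoImplicit false

namespace Pool.Agent.W935.HQ

open MeasureTheory Set Filter Topology
open Pool.Agent.W581.HQ

noncomputable section

/-- the integrand -/
def q (p : ℝ) (φ : ℝ → ℝ) (u : ℝ) : ℝ := (1 + u) * deriv (deriv φ) u / KK p φ u

/-- its primitive -/
def L (p : ℝ) (φ : ℝ → ℝ) (t : ℝ) : ℝ := ∫ u in t..1, q p φ u

variable {p : ℝ} {φ : ℝ → ℝ} {tc : ℝ}

lemma hd1 (h : ContDiff ℝ 2 φ) (t : ℝ) : HasDerivAt φ (deriv φ t) t :=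
  (h.differentiable (by norm_num) t).hasDerivAt

lemma hd2 (h : ContDiff ℝ 2 φ) (t : ℝ) : HasDerivAt (deriv φ) (deriv (deriv φ) t) t :=
  (h.differentiable_deriv_two t).hasDerivAt

lemma hc2 (h : ContDiff ℝ 2 φ) : Continuous (deriv (deriv φ)) := by
  have h1 : ContDiff ℝ 1 (deriv φ) := ContDiff.deriv' (n := 1) h
  exact h1.continuous_deriv le_rfl

lemma KK_deriv (h : ContDiff ℝ 2 φ) (t : ℝ) :
    HasDerivAt (KK p φ) ((p * t + p - 2) * deriv (deriv φ) t) t := by
  have e1 : HasDerivAt (fun t : ℝ => p * t + p - 2) p t := by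
    simpa using (((hasDerivAt_id t).const_mul p).add_const p).sub_const 2
  have e2 := (e1.mul (hd2 h t)).sub ((hd1 h t).const_mul p)
  refine e2.congr_deriv ?_
  ring

lemma KK_cont (h : ContDiff ℝ 2 φ) : Continuous (KK p φ) :=
  continuous_iff_continuousAt.2 fun t => (KK_deriv h t).continuousAt

lemma q_cont (h : ContDiff ℝ 2 φ) (hT : TC p φ tc) : ContinuousOn (q p φ) (Ioc tc 1) := by
  apply ContinuousOn.div
  · exact ((continuous_const.add continuous_id).mul (hc2 h)).continuousOn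
  · exact (KK_cont h).continuousOn
  · exact fun t ht => (hT.pos t ht).1.ne'

lemma q_pos (hT : TC p φ tc) {t : ℝ} (ht : t ∈ Ioc tc 1) : 0 < q p φ t := by
  have h1 := hT.pos t ht
  have h2 : 0 < 1 + t := by linarith [hT.ge, ht.1]
  exact div_pos (mul_pos h2 h1.2.2) h1.1

lemma q_int (h : ContDiff ℝ 2 φ) (hT : TC p φ tc) {a b : ℝ} (ha : a ∈ Ioc tc 1)
    (hb : b ∈ Ioc tc 1) : IntervalIntegrable (q p φ) volume a b := by
  apply ContinuousOn.intervalIntegrable
  exact (q_cont h hT).mono ((ordConnected_Ioc).uIcc_subset ha hb)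

lemma L_sub (h : ContDiff ℝ 2 φ) (hT : TC p φ tc) {a b : ℝ} (ha : a ∈ Ioc tc 1)
    (hb : b ∈ Ioc tc 1) : L p φ a - L p φ b = ∫ u in a..b, q p φ u := by
  have h1 : (1 : ℝ) ∈ Ioc tc 1 := ⟨hT.lt, le_rfl⟩
  have := intervalIntegral.integral_add_adjacent_intervals (q_int h hT ha hb) (q_int h hT hb h1)
  unfold L
  linarith

lemma L_one : L p φ 1 = 0 := by simp [L]

lemma L_anti (h : ContDiff ℝ 2 φ) (hT : TC p φ tc) : StrictAntiOn (L p φ) (Ioc tc 1) := by
  intro a ha b hb hab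
  have h1 := L_sub h hT ha hb
  have h2 : 0 < ∫ u in a..b, q p φ u := by
    apply intervalIntegral.intervalIntegral_pos_of_pos_on (q_int h hT ha hb) _ hab
    intro x hx
    exact q_pos hT ⟨by linarith [ha.1, hx.1], by linarith [hb.2, hx.2]⟩
  linarith

lemma L_cont (h : ContDiff ℝ 2 φ) (hT : TC p φ tc) : ContinuousOn (L p φ) (Ioc tc 1) := by
  intro t ht
  obtain ⟨a, ha1, ha2⟩ := exists_between ht.1
  have haI : a ∈ Ioc tc 1 := ⟨ha1, by linarith [ht.2]⟩
  have h1I : (1 : ℝ) ∈ Ioc tc 1 := ⟨hT.lt, le_rfl⟩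
  have h1 : ContinuousOn (L p φ) (uIcc a 1) := by
    apply intervalIntegral.continuousOn_primitive_interval_left
    have := (q_int h hT haI h1I)
    rw [intervalIntegrable_iff_integrableOn_Icc_of_le haI.2] at this
    rwa [uIcc_of_le haI.2]
  rw [uIcc_of_le haI.2] at h1
  have h2 : ContinuousWithinAt (L p φ) (Icc a 1) t := h1 t ⟨ha2.le, ht.2⟩
  refine h2.mono_of_mem_nhdsWithin ?_
  have : Ioc a 1 ∈ 𝓝[Ioc tc 1] t := by
    rw [mem_nhdsWithin]
    exact ⟨Ioi a, isOpen_Ioi, ha2, fun x hx => ⟨hx.1, hx.2.2⟩⟩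
  exact mem_of_superset this Ioc_subset_Icc_self

lemma L_deriv (h : ContDiff ℝ 2 φ) (hT : TC p φ tc) {t : ℝ} (ht : t ∈ Ioo tc 1) :
    HasDerivAt (L p φ) (-(q p φ t)) t := by
  have h1 : (1 : ℝ) ∈ Ioc tc 1 := ⟨hT.lt, le_rfl⟩
  have hc : ContinuousOn (q p φ) (Ioo tc 1) := (q_cont h hT).mono Ioo_subset_Ioc_self
  exact intervalIntegral.integral_hasDerivAt_left (q_int h hT (Ioo_subset_Ioc_self ht) h1)
    (hc.stronglyMeasurableAtFilter isOpen_Ioo t ht) (hc.continuousAt (isOpen_Ioo.mem_nhds ht))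

/-- lower bound for the primitive -/
lemma L_lower (h : ContDiff ℝ 2 φ) (hp : 1 < p) (hT : TC p φ tc) {t : ℝ} (ht : t ∈ Ioc tc 1) :
    (Real.log (KK p φ 1) - Real.log (KK p φ t)) / p ≤ L p φ t := by
  have h1 : (1 : ℝ) ∈ Ioc tc 1 := ⟨hT.lt, le_rfl⟩
  have hsub : uIcc t 1 ⊆ Ioc tc 1 := (ordConnected_Ioc).uIcc_subset ht h1
  have hder : ∀ x ∈ uIcc t 1, HasDerivAt (fun x => Real.log (KK p φ x))
      ((p * x + p - 2) * deriv (deriv φ) x / KK p φ x) x := fun x hx =>
    (KK_deriv h x).log (hT.pos x (hsub hx)).1.ne'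
  have hcont : ContinuousOn (fun x => (p * x + p - 2) * deriv (deriv φ) x / KK p φ x)
      (uIcc t 1) := by
    apply ContinuousOn.div
    · exact (((continuous_const.mul continuous_id).add continuous_const).sub
        continuous_const |>.mul (hc2 h)).continuousOn
    · exact (KK_cont h).continuousOn
    · exact fun x hx => (hT.pos x (hsub hx)).1.ne'
  have hint := intervalIntegral.integral_eq_sub_of_hasDerivAt hder hcont.intervalIntegrable
  have h2 : ∫ x in t..1, (p * x + p - 2) * deriv (deriv φ) x / KK p φ x ≤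
      ∫ x in t..1, p * q p φ x := by
    apply intervalIntegral.integral_mono_on ht.2 hcont.intervalIntegrable
      ((q_int h hT ht h1).const_mul p)
    intro x hx
    have hx' : x ∈ Ioc tc 1 := ⟨by linarith [ht.1, hx.1], hx.2⟩
    have h3 := hT.pos x hx'
    unfold q
    rw [← mul_div_assoc]
    apply div_le_div_of_nonneg_right _ h3.1.le
    nlinarith [h3.2.2]
  rw [intervalIntegral.integral_const_mul, hint] at h2
  rw [div_le_iff₀ (by linarith)]
  unfold L
  linarith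

lemma L_surj (h : ContDiff ℝ 2 φ) (hp : 1 < p) (hT : TC p φ tc) {y : ℝ} (hy : 0 ≤ y) :
    ∃ t ∈ Ioc tc 1, L p φ t = y := by
  have h1 : (1 : ℝ) ∈ Ioc tc 1 := ⟨hT.lt, le_rfl⟩
  have hK1 := (hT.pos 1 h1).1
  have hev : ∀ᶠ t in 𝓝[>] tc, KK p φ t < KK p φ 1 * Real.exp (-(p * y)) := by
    have : Tendsto (KK p φ) (𝓝[>] tc) (𝓝 (KK p φ tc)) :=
      ((KK_cont h).continuousAt (x := tc)).tendsto.mono_left nhdsWithin_le_nhds
    rw [hT.zero] at this
    exact this.eventually (gt_mem_nhds (by positivity))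
  have hev2 : ∀ᶠ t in 𝓝[>] tc, t ∈ Ioc tc 1 := Ioc_mem_nhdsGT hT.lt
  obtain ⟨t1, ht1, ht1'⟩ := (hev.and hev2).exists
  have hK := (hT.pos t1 ht1').1
  have h2 : Real.log (KK p φ t1) ≤ Real.log (KK p φ 1) - p * y := by
    have := Real.log_le_log hK ht1.le
    rwa [Real.log_mul hK1.ne' (Real.exp_pos _).ne', Real.log_exp, ← sub_eq_add_neg] at this
  have h3 : y ≤ L p φ t1 := by
    refine le_trans ?_ (L_lower h hp hT ht1')
    rw [le_div_iff₀ (by linarith)]
    linarith
  have hc : ContinuousOn (L p φ) (Icc t1 1) :=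
    (L_cont h hT).mono fun x hx => ⟨by linarith [ht1'.1, hx.1], hx.2⟩
  have := intermediate_value_Icc' ht1'.2 hc
  rw [L_one] at this
  obtain ⟨t, ht, hty⟩ := this ⟨hy, h3⟩
  exact ⟨t, ⟨by linarith [ht1'.1, ht.1], ht.2⟩, hty⟩

theorem main : S_INV := by
  intro p φ hD tc hT
  have h := hD.sm
  have hp := hD.p1
  have hex : ∀ s : ℝ, ∃ t ∈ Ioc tc 1, 1 ≤ s → L p φ t = Real.log s := by
    intro s
    by_cases hs : 1 ≤ s
    · obtain ⟨t, ht, hts⟩ := L_surj h hp hT (Real.log_nonneg hs)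
      exact ⟨t, ht, fun _ => hts⟩
    · exact ⟨1, ⟨hT.lt, le_rfl⟩, fun h' => absurd h' hs⟩
  choose τ hτ hL using hex
  have hanti := L_anti h hT
  have hinj := hanti.injOn
  have h1 : (1 : ℝ) ∈ Ioc tc 1 := ⟨hT.lt, le_rfl⟩
  have hone : τ 1 = 1 := by
    apply hinj (hτ 1) h1
    rw [hL 1 le_rfl, L_one, Real.log_one]
  have hlt : ∀ s, 1 < s → τ s < 1 := by
    intro s hs
    refine lt_of_le_of_ne (hτ s).2 ?_
    intro he
    have e1 := hL s hs.le
    rw [he, L_one] at e1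
    have := Real.log_pos hs
    linarith
  have hcont : ContinuousOn τ (Ici 1) := by
    intro s0 hs0
    have hs0' : (1 : ℝ) ≤ s0 := hs0
    have hs0p : 0 < s0 := by linarith
    refine tendsto_order.2 ⟨fun a ha => ?_, fun b hb => ?_⟩
    · obtain ⟨a', ha'1, ha'2⟩ := exists_between (max_lt ha (hτ s0).1)
      have ha'I : a' ∈ Ioc tc 1 := ⟨(le_max_right _ _).trans_lt ha'1, ha'2.le.trans (hτ s0).2⟩
      have e1 : Real.log s0 < L p φ a' := by
        rw [← hL s0 hs0']
        exact hanti ha'I (hτ s0) ha'2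
      have e2 : s0 < Real.exp (L p φ a') := by
        rwa [← Real.log_lt_iff_lt_exp hs0p]
      have e3 : ∀ᶠ s in 𝓝[Ici 1] s0, s < Real.exp (L p φ a') :=
        mem_nhdsWithin_of_mem_nhds (Iio_mem_nhds e2)
      filter_upwards [e3, self_mem_nhdsWithin] with s hs hs1
      have hs1' : (1 : ℝ) ≤ s := hs1
      have e4 : L p φ (τ s) < L p φ a' := by
        rw [hL s hs1', Real.log_lt_iff_lt_exp (by linarith)]
        exact hs
      have e5 := (hanti.lt_iff_gt (hτ s) ha'I).1 e4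
      exact ((le_max_left _ _).trans_lt ha'1).trans e5
    · rcases lt_or_ge 1 b with hb1 | hb1
      · exact Eventually.of_forall fun s => (hτ s).2.trans_lt hb1
      · have hbI : b ∈ Ioc tc 1 := ⟨(hτ s0).1.trans hb, hb1⟩
        have e1 : L p φ b < Real.log s0 := by
          rw [← hL s0 hs0']
          exact hanti (hτ s0) hbI hb
        have e2 : Real.exp (L p φ b) < s0 := by
          rwa [← Real.lt_log_iff_exp_lt hs0p]
        have e3 : ∀ᶠ s in 𝓝[Ici 1] s0, Real.exp (L p φ b) < s :=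
          mem_nhdsWithin_of_mem_nhds (Ioi_mem_nhds e2)
        filter_upwards [e3, self_mem_nhdsWithin] with s hs hs1
        have hs1' : (1 : ℝ) ≤ s := hs1
        have e4 : L p φ b < L p φ (τ s) := by
          rw [hL s hs1', Real.lt_log_iff_exp_lt (by linarith)]
          exact hs
        exact (hanti.lt_iff_gt hbI (hτ s)).1 e4
  refine ⟨τ, hone, fun s hs => ⟨(hτ s).1, hlt s hs⟩, hcont, ?_, ?_⟩
  · intro s hs
    have hs0 : 0 < s := by linarith
    have hτs : τ s ∈ Ioo tc 1 := ⟨(hτ s).1, hlt s hs⟩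
    have e1 := (L_deriv h hT hτs).exp
    rw [hL s hs.le, Real.exp_log hs0] at e1
    have hq := q_pos hT (hτ s)
    have hct : ContinuousAt τ s := hcont.continuousAt (Ici_mem_nhds hs)
    have e2 := HasDerivAt.of_local_left_inverse hct e1 (by
      have := mul_pos hs0 hq
      intro h0
      linarith) (by
      filter_upwards [lt_mem_nhds hs] with y hy
      rw [hL y hy.le, Real.exp_log (by linarith)])
    refine e2.congr_deriv ?_
    have h3 := hT.pos (τ s) (hτ s)
    have h4 : 0 < 1 + τ s := by linarith [hT.ge, (hτ s).1]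
    unfold q
    have h5 := h3.1.ne'
    have h6 := h3.2.2.ne'
    field_simp
  · intro t ht
    have e0 : 0 ≤ L p φ t := by
      rw [← L_one (p := p) (φ := φ)]
      exact hanti.antitoneOn ht h1 ht.2
    refine ⟨Real.exp (L p φ t), Real.one_le_exp e0, ?_⟩
    apply hinj (hτ _) ht
    rw [hL _ (Real.one_le_exp e0), Real.log_exp]

end

end Pool.Agent.W935.HQ
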